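import Pool.Agent.H933.LL.Stm9
import Pool.Agent.H548.LL.Nor
import Mathlib

/-!
# Normal plus logarithmic Schatten operators satisfy `RateW` (statement `P_nor5`)
-/

set_option autoImplicit false

open MeasureTheory Metric Filter Topology
open scoped Real InnerProductSpace

namespace Pool.Agent.H21.LL

open Pool.Agent.H933.LL Pool.Agent.H548.LL

section

variable {H : Type} [NormedAddCommGroup H] [InnerProductSpace ℂ H] [CompleteSpace H]

omit [CompleteSpace H] in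
/-- truncation of a singular value decomposition -/
lemma trunc_le {K : H →L[ℂ] H} {ι : Type} {e f : ι → H} {s : ι → ℝ} (he : Orthonormal ℂ e)
    (hf : Orthonormal ℂ f) (hs : ∀ i, 0 ≤ s i)
    (hK : ∀ x, HasSum (fun i => ((s i : ℂ) * ⟪e i, x⟫_ℂ) • f i) (K x)) (I : Finset ι) {δ : ℝ}
    (hδ : 0 ≤ δ) (hI : ∀ i, i ∉ I → s i ≤ δ) :
    ‖K - ∑ i ∈ I, ((s i : ℂ) • innerSL ℂ (e i)).smulRight (f i)‖ ≤ δ := by
  classical
  refine ContinuousLinearMap.opNorm_le_bound _ hδ fun x => ?_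
  have h2 : (K - ∑ i ∈ I, ((s i : ℂ) • innerSL ℂ (e i)).smulRight (f i)) x =
      K x - ∑ i ∈ I, ((s i : ℂ) * ⟪e i, x⟫_ℂ) • f i := by
    rw [sub_apply, sum_apply]
    rfl
  rw [h2]
  have h3 : HasSum (fun i => if i ∈ I then ((s i : ℂ) * ⟪e i, x⟫_ℂ) • f i else 0)
      (∑ i ∈ I, ((s i : ℂ) * ⟪e i, x⟫_ℂ) • f i) := by
    have h4 : ∑ i ∈ I, ((s i : ℂ) * ⟪e i, x⟫_ℂ) • f i =
        ∑ i ∈ I, (if i ∈ I then ((s i : ℂ) * ⟪e i, x⟫_ℂ) • f i else 0) :=
      Finset.sum_congr rfl fun i hi => by rw [if_pos hi]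
    rw [h4]
    exact hasSum_sum_of_ne_finset_zero fun i hi => if_neg hi
  have h5 := (hK x).sub h3
  have h6 : (fun i => ((s i : ℂ) * ⟪e i, x⟫_ℂ) • f i -
      (if i ∈ I then ((s i : ℂ) * ⟪e i, x⟫_ℂ) • f i else 0)) =
      fun i => ((if i ∈ I then (0 : ℂ) else (s i : ℂ)) * ⟪e i, x⟫_ℂ) • f i := by
    funext i
    by_cases hi : i ∈ I
    · rw [if_pos hi, if_pos hi, sub_self, zero_mul, zero_smul]
    · rw [if_neg hi, if_neg hi, sub_zero]
  rw [h6] at h5
  refine series_le he hf hδ (fun i => ?_) h5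
  by_cases hi : i ∈ I
  · rw [if_pos hi, norm_zero]; exact hδ
  · rw [if_neg hi, Complex.norm_real, Real.norm_eq_abs, abs_of_nonneg (hs i)]
    exact hI i hi

/-- part 3 of `P_nor5` -/
lemma compact_of_logSchatten {K : H →L[ℂ] H} {η : ℝ} (hK : LogSchatten K η) :
    IsCompactOperator K := by
  classical
  obtain ⟨ι, e, f, s, he, hf, hs, ⟨C, hC⟩, hKx⟩ := hK
  have hcl := isClosed_setOfPred_isCompactOperator (σ₁₂ := RingHom.id ℂ) (M₁ := H) (M₂ := H)
  have hmem : K ∈ closure {f : H →L[ℂ] H | IsCompactOperator f} := by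
    rw [Metric.mem_closure_iff]
    intro ε hε
    have hδ : 0 < min (ε / 2) 1 := lt_min (by linarith) one_pos
    obtain ⟨hfin, -⟩ := hC _ hδ (min_le_right _ _)
    refine ⟨∑ i ∈ hfin.toFinset, ((s i : ℂ) • innerSL ℂ (e i)).smulRight (f i), ?_, ?_⟩
    · have h1 : (∑ i ∈ hfin.toFinset, ((s i : ℂ) • innerSL ℂ (e i)).smulRight (f i)) ∈
          compactOperator (RingHom.id ℂ) H H := by
        refine Submodule.sum_mem _ fun i _ => ?_
        have h2 : IsCompactOperator ((s i : ℂ) • innerSL ℂ (e i) : H →L[ℂ] ℂ) :=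
          isCompactOperator_of_locallyCompactSpace_dom _
        exact h2.clm_comp (ContinuousLinearMap.toSpanSingleton ℂ (f i))
      exact h1
    · rw [dist_eq_norm]
      have h3 := trunc_le he hf hs hKx hfin.toFinset hδ.le (fun i hi => by
        rw [Set.Finite.mem_toFinset] at hi
        exact not_lt.mp hi)
      have h4 : min (ε / 2) 1 ≤ ε / 2 := min_le_left _ _
      linarith
  rw [hcl.closure_eq] at hmem
  exact hmem

/-- `log x ≤ x ^ η / η` with a negative exponent: `- log d ≤ d ^ (-η) / η` -/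
lemma neg_log_le {d η : ℝ} (hd : 0 < d) (hη : 0 < η) : - Real.log d ≤ d ^ (-η) / η := by
  have h1 := Real.log_le_rpow_div (x := d⁻¹) (inv_nonneg.mpr hd.le) hη
  rw [Real.log_inv, Real.inv_rpow hd.le, ← Real.rpow_neg hd.le] at h1
  exact h1

lemma one_le_rpow_neg {d η : ℝ} (hd : 0 < d) (hd1 : d ≤ 1) (hη : 0 < η) : 1 ≤ d ^ (-η) := by
  have h1 := Real.rpow_le_rpow_of_exponent_ge hd hd1 (show -η ≤ 0 by linarith)
  rwa [Real.rpow_zero] at h1

omit [CompleteSpace H] in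
/-- part 2 of `P_nor5` -/
lemma logSchatten_of_schatten {K : H →L[ℂ] H} {p η : ℝ} (hp : 0 < p) (hη : 0 < η)
    (hK : Schatten K p) : LogSchatten K η := by
  classical
  obtain ⟨ι, e, f, s, he, hf, hs, hsum, hKx⟩ := hK
  refine ⟨ι, e, f, s, he, hf, hs, ⟨(∑' i, s i ^ p) + p / η, fun δ hδ hδ1 => ?_⟩, hKx⟩
  obtain ⟨Sp, hSg⟩ : ∃ S, S = ∑' i, s i ^ p := ⟨_, rfl⟩
  rw [← hSg]
  have hSg0 : 0 ≤ Sp := by
    rw [hSg]
    exact tsum_nonneg fun i => Real.rpow_nonneg (hs i) p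
  have hfin : {i | δ < s i}.Finite := by
    have h1 := hsum.tendsto_cofinite_zero
    have h2 : 0 < δ ^ p := Real.rpow_pos_of_pos hδ _
    have h3 := h1.eventually (gt_mem_nhds h2)
    refine (Filter.eventually_cofinite.mp h3).subset fun i hi => ?_
    have hi' : δ < s i := hi
    show ¬ (s i ^ p < δ ^ p)
    rw [not_lt]
    exact Real.rpow_le_rpow hδ.le hi'.le hp.le
  refine ⟨hfin, ?_⟩
  rw [Set.ncard_eq_toFinset_card _ hfin]
  have h1 : (hfin.toFinset.card : ℝ) * δ ^ p ≤ Sp := by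
    have h2 : (hfin.toFinset.card : ℝ) * δ ^ p ≤ ∑ i ∈ hfin.toFinset, s i ^ p := by
      rw [← nsmul_eq_mul, ← Finset.sum_const]
      refine Finset.sum_le_sum fun i hi => ?_
      rw [Set.Finite.mem_toFinset] at hi
      exact Real.rpow_le_rpow hδ.le (le_of_lt hi) hp.le
    rw [hSg]
    exact h2.trans (hsum.sum_le_tsum _ fun i _ => Real.rpow_nonneg (hs i) p)
  have hδp : 0 < δ ^ p := Real.rpow_pos_of_pos hδ _
  have h3 : (hfin.toFinset.card : ℝ) ≤ Sp * (δ ^ p)⁻¹ := by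
    rw [← div_eq_mul_inv, le_div_iff₀ hδp]
    exact h1
  have h4 : (δ ^ p)⁻¹ = Real.exp (p * (- Real.log δ)) := by
    rw [Real.rpow_def_of_pos hδ, ← Real.exp_neg]
    congr 1
    ring
  have h5 := neg_log_le hδ hη
  have h6 := one_le_rpow_neg hδ hδ1 hη
  have h7 : Sp ≤ Real.exp (Sp * δ ^ (-η)) := by
    have h8 : Sp ≤ Sp * δ ^ (-η) := le_mul_of_one_le_right hSg0 h6
    have h9 := Real.add_one_le_exp (Sp * δ ^ (-η))
    linarith
  calc (hfin.toFinset.card : ℝ) ≤ Sp * (δ ^ p)⁻¹ := h3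
    _ ≤ Real.exp (Sp * δ ^ (-η)) * Real.exp (p * (δ ^ (-η) / η)) := by
        rw [h4]
        exact mul_le_mul h7 (Real.exp_le_exp.mpr (mul_le_mul_of_nonneg_left h5 hp.le))
          (Real.exp_pos _).le (Real.exp_pos _).le
    _ = Real.exp ((Sp + p / η) * δ ^ (-η)) := by
        rw [← Real.exp_add]
        congr 1
        ring

/-- part 1 of `P_nor5` -/
lemma rateW_of_logSchatten {N K : H →L[ℂ] H} {E : Set ℂ} {η : ℝ} (hN : IsStarNormal N)
    (hspec : spectrum ℂ N ⊆ E) (hη : 0 < η) (hK : LogSchatten K η) {c : ℝ} (hc : 0 < c) :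
    ∃ C : ℝ, RateW N ((c : ℂ) • K) E (fun d => d ^ (-η)) C := by
  classical
  obtain ⟨ι, e, f, s, he, hf, hs, ⟨C, hC⟩, hKx⟩ := hK
  -- the singular value decomposition of `c K`
  have hcs : ∀ i, 0 ≤ c * s i := fun i => mul_nonneg hc.le (hs i)
  have hcK : ∀ x, HasSum (fun i => (((c * s i : ℝ) : ℂ) * ⟪e i, x⟫_ℂ) • f i)
      (((c : ℂ) • K) x) := by
    intro x
    have h1 := (hKx x).const_smul (c : ℂ)
    have h2 : (fun i => (c : ℂ) • (((s i : ℂ) * ⟪e i, x⟫_ℂ) • f i)) =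
        fun i => (((c * s i : ℝ) : ℂ) * ⟪e i, x⟫_ℂ) • f i := by
      funext i
      rw [smul_smul, Complex.ofReal_mul, mul_assoc]
    rw [h2] at h1
    exact h1
  have hsK := sv_le he hf hcs hcK
  obtain ⟨M, hM⟩ : ∃ M, M = ‖(c : ℂ) • K‖ + 1 + 1 / c := ⟨_, rfl⟩
  have hKn := norm_nonneg ((c : ℂ) • K)
  have h1c : 0 < 1 / c := by positivity
  have hM1 : 1 ≤ M := by rw [hM]; linarith
  obtain ⟨B, hB⟩ : ∃ B, B = 1 + M := ⟨_, rfl⟩
  have hB0 : 0 < B := by rw [hB]; linarith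
  have hB1 : 1 ≤ B := by rw [hB]; linarith
  obtain ⟨D, hD⟩ : ∃ D, D = |C| * (2 * c * B) ^ η + Real.log 2 + Real.log B + 1 / η :=
    ⟨_, rfl⟩
  have hlog2 : 0 < Real.log 2 := Real.log_pos (by norm_num)
  have hlogB : 0 ≤ Real.log B := Real.log_nonneg hB1
  have hη1 : 0 < 1 / η := by positivity
  have hpow0 : 0 ≤ |C| * (2 * c * B) ^ η :=
    mul_nonneg (abs_nonneg _) (Real.rpow_nonneg (by positivity) _)
  refine ⟨D, ⟨?_, ?_⟩⟩
  · intro z hz
    by_contra h
    exact hz (hspec h)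
  · intro d hd hd1
    have hw := one_le_rpow_neg hd hd1 hη
    have hw0 : 0 ≤ d ^ (-η) := by linarith
    show ∃ (n : ℕ) (φ : Fin n → (H →L[ℂ] ℂ)) (f : Fin n → H) (ρ : ℝ),
      1 ≤ ρ ∧ Real.log (n + 1) ≤ D * (1 + d ^ (-η)) ∧
      Real.log (1 + Real.log ρ) ≤ D * (1 + d ^ (-η)) ∧
      (∀ i, ‖φ i‖ ≤ ρ ∧ ‖f i‖ ≤ ρ) ∧ (∀ z : ℂ, d ≤ infDist z E → ‖resolvent N z‖ ≤ ρ) ∧
      ‖(c : ℂ) • K - ∑ i, (φ i).smulRight (f i)‖ * ρ ≤ 1 / 2
    obtain ⟨ρ, hρ⟩ : ∃ ρ, ρ = 1 / d + M := ⟨_, rfl⟩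
    have h1d : 1 ≤ 1 / d := by
      rw [le_div_iff₀ hd]; linarith
    have hρ1 : 1 ≤ ρ := by rw [hρ]; linarith
    have hρ0 : 0 < ρ := by linarith
    have hρB : ρ ≤ B * d⁻¹ := by
      rw [hρ, hB, one_div]
      rw [one_div] at h1d
      nlinarith
    -- the threshold
    obtain ⟨δ, hδ⟩ : ∃ δ, δ = 1 / (2 * c * ρ) := ⟨_, rfl⟩
    have hcρ : 1 ≤ 2 * c * ρ := by
      have h1 : 1 / c ≤ ρ := by
        rw [hρ, hM]
        linarith
      have h2 : c * (1 / c) ≤ c * ρ := mul_le_mul_of_nonneg_left h1 hc.le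
      rw [mul_one_div_cancel hc.ne'] at h2
      linarith
    have hδ0 : 0 < δ := by rw [hδ]; positivity
    have hδ1 : δ ≤ 1 := by
      rw [hδ, div_le_one (by linarith)]
      exact hcρ
    obtain ⟨hfin, hcard⟩ := hC δ hδ0 hδ1
    rw [Set.ncard_eq_toFinset_card _ hfin] at hcard
    obtain ⟨I, hI⟩ : ∃ I : Finset ι, I = hfin.toFinset := ⟨_, rfl⟩
    rw [← hI] at hcard
    have hmem : ∀ i, i ∈ I ↔ δ < s i := by
      intro i
      rw [hI, Set.Finite.mem_toFinset]
      rfl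
    -- the enumeration
    obtain ⟨g⟩ : Nonempty (Fin I.card ≃ I) := ⟨I.equivFin.symm⟩
    refine ⟨I.card, fun k => ((c * s (g k) : ℝ) : ℂ) • innerSL ℂ (e (g k)), fun k => f (g k), ρ,
      hρ1, ?_, ?_, ?_, ?_, ?_⟩
    · -- the rank
      have h1 : δ ^ (-η) ≤ (2 * c * B) ^ η * d ^ (-η) := by
        have h2 : δ ^ (-η) = (2 * c * ρ) ^ η := by
          rw [hδ, one_div, Real.inv_rpow (by linarith), ← Real.rpow_neg (by linarith), neg_neg]
        have h3 : (2 * c * ρ) ^ η ≤ ((2 * c * B) * d⁻¹) ^ η := by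
          refine Real.rpow_le_rpow (by linarith) ?_ hη.le
          have h4 : 2 * c * ρ ≤ 2 * c * (B * d⁻¹) :=
            mul_le_mul_of_nonneg_left hρB (by positivity)
          linarith
        have h5 : ((2 * c * B) * d⁻¹) ^ η = (2 * c * B) ^ η * d ^ (-η) := by
          rw [Real.mul_rpow (x := 2 * c * B) (y := d⁻¹) (by positivity) (by positivity),
            Real.inv_rpow hd.le, ← Real.rpow_neg hd.le]
        rw [h2, ← h5]
        exact h3
      have hδw0 : 0 ≤ δ ^ (-η) := Real.rpow_nonneg hδ0.le _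
      have h2 : (I.card : ℝ) + 1 ≤ Real.exp (|C| * δ ^ (-η)) * 2 := by
        have h3 : Real.exp (C * δ ^ (-η)) ≤ Real.exp (|C| * δ ^ (-η)) :=
          Real.exp_le_exp.mpr (mul_le_mul_of_nonneg_right (le_abs_self C) hδw0)
        have h4 : 1 ≤ Real.exp (|C| * δ ^ (-η)) :=
          Real.one_le_exp (mul_nonneg (abs_nonneg _) hδw0)
        linarith
      have h3 : Real.log ((I.card : ℝ) + 1) ≤ |C| * δ ^ (-η) + Real.log 2 := by
        have h4 := Real.log_le_log (by positivity) h2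
        rw [Real.log_mul (Real.exp_pos _).ne' (by norm_num), Real.log_exp] at h4
        exact h4
      have h4 : |C| * δ ^ (-η) ≤ |C| * (2 * c * B) ^ η * d ^ (-η) := by
        rw [mul_assoc]
        exact mul_le_mul_of_nonneg_left h1 (abs_nonneg _)
      have h5 : 0 ≤ |C| * (2 * c * B) ^ η * 1 := by linarith
      have h6 : 0 ≤ (Real.log 2 + Real.log B + 1 / η) * d ^ (-η) := by positivity
      have h7 : D * (1 + d ^ (-η)) = |C| * (2 * c * B) ^ η * d ^ (-η) + Real.log 2 +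
          (|C| * (2 * c * B) ^ η * 1 + (Real.log B + 1 / η) +
            (Real.log 2 + Real.log B + 1 / η) * d ^ (-η)) := by
        rw [hD]; ring
      rw [h7]
      have h8 : 0 ≤ Real.log B + 1 / η := by linarith
      linarith
    · -- the resolvent
      have hlρ0 : 0 ≤ Real.log ρ := Real.log_nonneg hρ1
      have h1 : Real.log (1 + Real.log ρ) ≤ Real.log ρ := by
        have h2 := Real.log_le_sub_one_of_pos (show 0 < 1 + Real.log ρ by linarith)
        linarith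
      have h2 : Real.log ρ ≤ Real.log B + (- Real.log d) := by
        have h3 := Real.log_le_log hρ0 hρB
        rw [Real.log_mul hB0.ne' (inv_pos.mpr hd).ne', Real.log_inv] at h3
        exact h3
      have h3 := neg_log_le hd hη
      have h4 : D * (1 + d ^ (-η)) = Real.log B + d ^ (-η) / η +
          ((|C| * (2 * c * B) ^ η + Real.log 2) * (1 + d ^ (-η)) + Real.log B * d ^ (-η)
            + 1 / η) := by
        rw [hD]; ring
      have h5 : 0 ≤ (|C| * (2 * c * B) ^ η + Real.log 2) * (1 + d ^ (-η)) :=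
        mul_nonneg (by linarith) (by linarith)
      have h6 : 0 ≤ Real.log B * d ^ (-η) := mul_nonneg hlogB hw0
      rw [h4]
      linarith
    · intro k
      constructor
      · rw [norm_smul, innerSL_apply_norm, he.norm_eq_one, mul_one, Complex.norm_real,
          Real.norm_eq_abs, abs_of_nonneg (hcs _)]
        have := hsK (g k)
        have h1d0 : 0 < 1 / d := by positivity
        rw [hρ, hM]
        linarith
      · rw [hf.norm_eq_one]
        exact hρ1
    · intro z hz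
      have h1 : ‖resolvent N z‖ ≤ 1 / d := by
        refine res_le hN hd fun w hw => ?_
        have h2 := infDist_le_dist_of_mem (x := z) (hspec hw)
        rw [dist_eq_norm] at h2
        linarith
      rw [hρ]
      linarith
    · have h0 : ∑ k, (((c * s (g k) : ℝ) : ℂ) • innerSL ℂ (e (g k))).smulRight (f (g k)) =
          ∑ i ∈ I, (((c * s i : ℝ) : ℂ) • innerSL ℂ (e i)).smulRight (f i) := by
        rw [← Finset.sum_coe_sort I
          (fun i => (((c * s i : ℝ) : ℂ) • innerSL ℂ (e i)).smulRight (f i))]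
        exact Fintype.sum_equiv g _ _ fun k => rfl
      have h1 : ‖(c : ℂ) • K - ∑ i ∈ I, (((c * s i : ℝ) : ℂ) • innerSL ℂ (e i)).smulRight (f i)‖
          ≤ 1 / (2 * ρ) := by
        refine trunc_le he hf hcs hcK I (by positivity) fun i hi => ?_
        rw [hmem, not_lt] at hi
        have h2 : c * s i ≤ c * δ := mul_le_mul_of_nonneg_left hi hc.le
        have h3 : c * δ = 1 / (2 * ρ) := by
          rw [hδ]
          field_simp
        linarith
      rw [h0]
      calc ‖(c : ℂ) • K - ∑ i ∈ I, (((c * s i : ℝ) : ℂ) • innerSL ℂ (e i)).smulRight (f i)‖ * ρ ≤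
            1 / (2 * ρ) * ρ := mul_le_mul_of_nonneg_right h1 hρ0.le
        _ = 1 / 2 := by field_simp

end

/-- **P_nor5** -/
theorem p_nor5 : P_nor5 := by
  refine ⟨?_, ?_, ?_⟩
  · intro H _ _ _ N K E η hN _ _ hspec hη hK c hc
    exact rateW_of_logSchatten hN hspec hη hK hc
  · intro H _ _ _ K p η hp hη hK
    exact logSchatten_of_schatten hp hη hK
  · intro H _ _ _ K η _ hK
    exact compact_of_logSchatten hK

end Pool.Agent.H21.LL
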